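import Pool.Agent.Lib.MP_2674cb_lc.Final
import Pool.Agent.Lib.MP_2674cb_lc.Ins.Reg

/-! MP_2674cb_lc: a strong gap theorem for length-preserving semi-Thue systems. The lower bound
`c n log n` holds for ALL large `n` (not only for infinitely many `n`), with a threshold that depends only
on the number and the length of the rules; if it fails for one `n` above the threshold, the system is
linear and its reachability relation is regular. -/

set_option autoImplicit false

namespace Pool.Agent.Results.MP_2674cb_lc.StrongGap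

open Filter Asymptotics

variable {A : Type*}

/-- One rewriting step of the semi-Thue system `S`: an occurrence of a left side is replaced by the right
side. -/
def Rewrites (S : Finset (List A × List A)) (w w' : List A) : Prop :=
  ∃ x y : List A, ∃ p ∈ S, w = x ++ p.1 ++ y ∧ w' = x ++ p.2 ++ y

/-- There is no infinite chain of rewriting steps. -/
def Terminating (S : Finset (List A × List A)) : Prop :=
  ¬ ∃ f : ℕ → List A, ∀ i : ℕ, Rewrites S (f i) (f (i + 1))

/-- The derivational complexity function `Δ_S(n)`: the largest length of a chain of rewriting steps which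
starts from a word of length at most `n`. -/
noncomputable def Delta (S : Finset (List A × List A)) (n : ℕ) : ℕ :=
  sSup {m : ℕ | ∃ f : ℕ → List A, (f 0).length ≤ n ∧ ∀ i < m, Rewrites S (f i) (f (i + 1))}

/-- `f 0 → f 1 → ⋯ → f m` is a derivation whose `i`-th step replaces the left side of the rule `r i ∈ S`,
occurring in `f i` at the positions `g i, g i + 1, …`, by its right side. -/
def IsDerivation (S : Finset (List A × List A)) (m : ℕ) (f : ℕ → List A) (g : ℕ → ℕ)
    (r : ℕ → List A × List A) : Prop :=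
  ∀ i < m, r i ∈ S ∧ ∃ x y : List A, x.length = g i ∧ f i = x ++ (r i).1 ++ y ∧
    f (i + 1) = x ++ (r i).2 ++ y

/-- The number of steps of such a derivation in which the position `q` lies inside the replaced factor. -/
def activity (m : ℕ) (g : ℕ → ℕ) (r : ℕ → List A × List A) (q : ℕ) : ℕ :=
  ((Finset.range m).filter (fun i => g i ≤ q ∧ q < g i + (r i).1.length)).card

open Pool.Agent.Lib.MP_2674cb_lc in
lemma trace_length (g : ℕ → ℕ) (r : ℕ → List A × List A) (q : ℕ) (m : ℕ) :
    (trace ((List.range m).map (fun i => ((g i : ℤ), r i))) (q : ℤ)).length = activity m g r q := by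
  induction m with
  | zero => simp [activity, trace_nil]
  | succ m ih =>
    rw [List.range_succ, List.map_append, trace_append, List.length_append, ih]
    unfold activity
    rw [Finset.range_add_one, Finset.filter_insert]
    by_cases h : g m ≤ q ∧ q < g m + (r m).1.length
    · rw [if_pos h, Finset.card_insert_of_notMem (by simp)]
      congr 1
      have h1 : ev ((g m : ℤ), r m) (q : ℤ) = some (r m, ((q : ℤ) - g m).toNat) := by
        rw [ev_eq_some_iff]
        exact ⟨⟨by simpa using h.1, by simp only; exact_mod_cast h.2⟩, rfl⟩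
      simp [trace, h1]
    · rw [if_neg h]
      have h1 : ev ((g m : ℤ), r m) (q : ℤ) = none := by
        rw [ev_eq_none_iff]
        simp only
        omega
      simp [trace, h1]

/-- **Strong gap theorem.** For all `s` and `B` there is a threshold `n₀` such that for every nonempty
terminating length-preserving semi-Thue system `S` over a finite alphabet, with at most `s` rules, all of
length at most `B`, and for every single `n ≥ n₀` one of the following holds:
(a) `Δ_S(n) ≥ n log n / (8 B log (s B + 1))`;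
(b) `Δ_S(m) ≤ m log n / (3 log (s B + 1))` for all `m`, `Δ_S(m) = Θ(m)`, there is a `K` such that in every
derivation every position is rewritten at most `K` times, and the reachability relation of `S`, as a
language over pairs of letters, is regular.
As (b) says that `S` is linear, (a) holds for all `n ≥ n₀` if `Δ_S` is not linear. -/
theorem result (s B : ℕ) :
    ∃ n₀ : ℕ, ∀ (k : ℕ) (S : Finset (List (Fin k) × List (Fin k))),
      S.Nonempty → S.card ≤ s → (∀ p ∈ S, p.1.length = p.2.length ∧ p.1.length ≤ B) →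
      Terminating S → ∀ n ≥ n₀,
      (n : ℝ) * Real.log n / (8 * B * Real.log (s * B + 1)) ≤ Delta S n ∨
      ((∀ m : ℕ, (Delta S m : ℝ) ≤ m * Real.log n / (3 * Real.log (s * B + 1))) ∧
        (fun m : ℕ => (Delta S m : ℝ)) =Θ[atTop] (fun m : ℕ => (m : ℝ)) ∧
        (∃ K : ℕ, ∀ m f g r, IsDerivation S m f g r → ∀ q : ℕ, activity m g r q ≤ K) ∧
        Language.IsRegular ({u : List (Fin k × Fin k) |
          Relation.ReflTransGen (Rewrites S) (u.map Prod.fst) (u.map Prod.snd)} :
            Language (Fin k × Fin k))) := by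
  classical
  by_cases hsB : 1 ≤ s ∧ 1 ≤ B
  swap
  · -- no such systems
    refine ⟨0, fun k S hne hcard hp hterm => ?_⟩
    exfalso
    apply hsB
    refine ⟨le_trans (Finset.card_pos.2 hne) hcard, ?_⟩
    obtain ⟨p, hpS⟩ := hne
    have h1 := Pool.Agent.Lib.MP_2674cb_lc.ne_nil S hterm (fun p hp' => (hp p hp').1) p hpS
    exact le_trans (List.length_pos_iff.2 h1) (hp p hpS).2
  obtain ⟨hs, hB⟩ := hsB
  obtain ⟨n0, hn0, hgap⟩ := Pool.Agent.Lib.MP_2674cb_lc.point_gap s B hs hB
  refine ⟨n0, fun k S hne hcard hp hterm => ?_⟩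
  have hlen : ∀ p ∈ S, p.1.length = p.2.length := fun p h => (hp p h).1
  have hBS : ∀ p ∈ S, p.1.length ≤ B := fun p h => (hp p h).2
  have hnil : ∀ p ∈ S, p.1 ≠ [] := Pool.Agent.Lib.MP_2674cb_lc.ne_nil S hterm hlen
  have hbdd : ∀ n, BddAbove (Pool.Agent.Lib.MP_2674cb_lc.A S n) :=
    Pool.Agent.Lib.MP_2674cb_lc.bdd S hlen hterm
  have hDL : ∀ n m : ℕ, Pool.Agent.Lib.MP_2674cb_lc.DL (S : Set (List (Fin k) × List (Fin k))) n m →
      m ≤ Delta S n := by
    rintro n m ⟨f, hf0, hf⟩
    exact le_csSup (hbdd n) ⟨f, hf0.le, hf⟩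
  -- bounded means give linear complexity
  have hlin : ∀ a : ℕ, (∀ (l : List (Fin k)) (d : List (Pool.Agent.Lib.MP_2674cb_lc.Step (Fin k))),
      Pool.Agent.Lib.MP_2674cb_lc.Valid (S : Set (List (Fin k) × List (Fin k))) l d →
        Pool.Agent.Lib.MP_2674cb_lc.tot l d ≤ a * l.length) → ∀ m : ℕ, Delta S m ≤ a * m := by
    intro a ha m
    have hne0 : ({m' : ℕ | ∃ f : ℕ → List (Fin k), (f 0).length ≤ m ∧
        ∀ i < m', Rewrites S (f i) (f (i + 1))}).Nonempty := ⟨0, fun _ => [], by simp, by simp⟩
    apply csSup_le hne0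
    rintro m' ⟨f, hf0, hf⟩
    obtain ⟨d, hd, hv⟩ := Pool.Agent.Lib.MP_2674cb_lc.exists_valid_of_chain
      (S : Set (List (Fin k) × List (Fin k))) (fun p hp => hlen p hp) m' f hf
    have h1 := Pool.Agent.Lib.MP_2674cb_lc.length_le_sum (fun p hp => hnil p hp) hv
    rw [← hd]
    calc d.length ≤ Pool.Agent.Lib.MP_2674cb_lc.tot (f 0) d := h1
      _ ≤ a * (f 0).length := ha _ _ hv
      _ ≤ a * m := Nat.mul_le_mul_left _ hf0
  set b : ℕ := s * B + 1 with hb
  have hb2 : 2 ≤ b := by
    have : 1 ≤ s * B := Nat.mul_pos hs hB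
    omega
  have hlogb : 0 < Real.log (b : ℝ) := Real.log_pos (by exact_mod_cast (by omega : 1 < b))
  have hbcast : ((s : ℝ) * B + 1) = (b : ℝ) := by rw [hb]; push_cast; ring
  -- one small value bounds the means
  have hone : ∀ n ≥ n0, (Delta S n : ℝ) < n * Real.log n / (8 * B * Real.log (s * B + 1)) →
      (∀ (l : List (Fin k)) (d : List (Pool.Agent.Lib.MP_2674cb_lc.Step (Fin k))),
      Pool.Agent.Lib.MP_2674cb_lc.Valid (S : Set (List (Fin k) × List (Fin k))) l d →
        Pool.Agent.Lib.MP_2674cb_lc.tot l d ≤ (Nat.log b n / 3) * l.length) := by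
    intro n hn hlt
    rcases hgap (Fin k) S hcard hlen hnil hBS n hn with h | ⟨m, h1, h2⟩
    · exact h
    · exfalso
      have h3 : (m : ℝ) ≤ Delta S n := by exact_mod_cast hDL n m h1
      linarith
  intro n hn
  by_cases hbig : (n : ℝ) * Real.log n / (8 * B * Real.log (s * B + 1)) ≤ Delta S n
  · exact Or.inl hbig
  right
  push Not at hbig
  have hmean := hone n hn hbig
  refine ⟨?_, ?_⟩
  · intro m
    have h1 := hlin _ hmean m
    have hn1 : 1 ≤ n := le_trans hn0 hn
    have h2 : ((Nat.log b n / 3 : ℕ) : ℝ) ≤ Real.log n / (3 * Real.log b) := by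
      calc ((Nat.log b n / 3 : ℕ) : ℝ) ≤ (Nat.log b n : ℝ) / 3 := by
            exact_mod_cast Nat.cast_div_le (α := ℝ) (m := Nat.log b n) (n := 3)
        _ ≤ Real.logb b n / 3 := by
            apply div_le_div_of_nonneg_right (Real.natLog_le_logb n b) (by norm_num)
        _ = Real.log n / (3 * Real.log b) := by
            unfold Real.logb
            field_simp
    rw [hbcast]
    calc (Delta S m : ℝ) ≤ ((Nat.log b n / 3 : ℕ) : ℝ) * m := by exact_mod_cast h1
      _ ≤ Real.log n / (3 * Real.log b) * m := mul_le_mul_of_nonneg_right h2 (Nat.cast_nonneg _)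
      _ = m * Real.log n / (3 * Real.log b) := by ring
  · obtain ⟨K, hK⟩ := Pool.Agent.Lib.MP_2674cb_lc.trace_bound S B hnil hBS _ hmean
    refine ⟨⟨?_, ?_⟩, ⟨K, ?_⟩, ?_⟩
    · apply IsBigO.of_bound ((Nat.log b n / 3 : ℕ) : ℝ)
      filter_upwards with m
      rw [Real.norm_eq_abs, Real.norm_eq_abs, abs_of_nonneg (Nat.cast_nonneg _),
        abs_of_nonneg (Nat.cast_nonneg _)]
      exact_mod_cast hlin _ hmean m
    · obtain ⟨c, hc, hlow⟩ := Pool.Agent.Lib.MP_2674cb_lc.lower S hlen hterm hne
      apply IsBigO.of_bound (2 * (c : ℝ))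
      filter_upwards [eventually_ge_atTop c] with m hm
      rw [Real.norm_eq_abs, Real.norm_eq_abs, abs_of_nonneg (Nat.cast_nonneg _),
        abs_of_nonneg (Nat.cast_nonneg _)]
      have h1 : m / c ≤ Delta S m := le_csSup (hbdd m) (hlow m)
      have h2 : m ≤ 2 * c * (m / c) := by
        have h3 := Nat.div_add_mod m c
        have h4 : m % c < c := Nat.mod_lt _ hc
        have h5 : 1 ≤ m / c := (Nat.one_le_div_iff hc).2 hm
        nlinarith
      have h3 : m ≤ 2 * c * Delta S m := le_trans h2 (Nat.mul_le_mul_left _ h1)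
      exact_mod_cast h3
    · intro m f g r hder q
      have h1 := Pool.Agent.Lib.MP_2674cb_lc.validTo_of_der
        (S := (S : Set (List (Fin k) × List (Fin k)))) (fun p hp => hlen p hp) m f g r
        (fun i hi => hder i hi)
      rw [← trace_length]
      exact hK _ _ (Pool.Agent.Lib.MP_2674cb_lc.valid_of_to h1) (q : ℤ)
    · exact Pool.Agent.Lib.MP_2674cb_lc.regular_of_bounded S hlen hnil K hK

end Pool.Agent.Results.MP_2674cb_lc.StrongGap
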